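import Pool.Agent.R986.ARHeavy
import Pool.Agent.R986.ARLiouville

/-!
# A Liouville random walk on a countable abelian group which is not algebraically recurrent

The group is the direct sum of countably many infinite cyclic groups. Every random walk on it is
Liouville by the theorem of Choquet and Deny (proved in `Pool.Agent.R986.ARLiouville`), and the
walk with the heavy-tailed steps of `Pool.Agent.R986.ARHeavy` is not algebraically recurrent.
-/

set_option autoImplicit false

open MeasureTheory

namespace Pool.Agent.Results.MP_a29a94_pr.AbelianCounterexample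

open Pool.Agent.R986.AlgRec

/-- There are a countable abelian group `G` and a symmetric probability measure `μ` on `G`, whose
support generates `G`, such that the `μ`-random walk is Liouville but `(G, μ)` is not algebraically
recurrent; in fact almost surely the identity is missing from `S_n` for some `n`. -/
theorem result : ∃ (G : Type) (_ : CommGroup G) (_ : Countable G) (μ : PMF G),
    Admissible μ ∧ Liouville μ ∧
    (∃ n : ℕ, 1 ≤ n ∧ 0 < (@steps G ⊤ μ) {ω | tail ω n ≠ ⊤}) ∧
    (∀ᵐ ω ∂(@steps G ⊤ μ), ∃ n : ℕ, 1 ≤ n ∧ (1 : G) ∉ tail ω n) := by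
  let _ : MeasurableSpace (Multiplicative (ℤ →₀ ℤ)) := ⊤
  have hc : Countable (Multiplicative (ℤ →₀ ℤ)) := inferInstanceAs (Countable (ℤ →₀ ℤ))
  exact ⟨Multiplicative (ℤ →₀ ℤ), inferInstance, hc, nuS, nuS_admissible,
    liouville_of_comm _ nuS_admissible.2, not_ar_of_one_notMem _ nuS_ae, nuS_ae⟩

end Pool.Agent.Results.MP_a29a94_pr.AbelianCounterexample
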